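import Pool.Agent.H488R2.EN.C

/-! Task EN2a of helper410 (helper488), part 4: `ExpandW` from `FLem`. -/

set_option autoImplicit false

open Finset

namespace Pool.Agent.H488R2.EN2a

open Pool.Agent.H410R2.AC Pool.Agent.H410R2.EN

/-- local factor with the true densities -/
noncomputable def Et (κ : ℕ → ℕ → ℝ) (h : ℕ → ℕ → ℝ) (Cl : ℕ → Finset ℕ) (p : ℕ) : ℝ :=
  1 + ∑ c ∈ Cl p, (h p c - 1) * κ p c

lemma Et_bounds {κ : ℕ → ℕ → ℝ} {e : ℕ → ℕ} {P : Finset ℕ} (hD : Dens κ e P) {h : ℕ → ℕ → ℝ}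
    {Cl : ℕ → Finset ℕ} {p : ℕ} (hp : p ∈ P) (hpp : p.Prime)
    (hCl : Cl p ⊆ range p ∧ ∀ c < p, c ∉ Cl p → h p c = 1) :
    |Et κ h Cl p| ≤ 1 + aL (Cl p) (h p) p ∧
    |(∑ c ∈ range p, h p c) / (p : ℝ)| ≤ 1 + aL (Cl p) (h p) p ∧
    |Et κ h Cl p - (∑ c ∈ range p, h p c) / (p : ℝ)| ≤ dL (Cl p) (h p) (e p) p ∧
    1 + ∑ c ∈ Cl p, |h p c - 1| * κ p c ≤ 1 + aL (Cl p) (h p) p := by
  have h1 : (1 : ℝ) < p := by exact_mod_cast hpp.one_lt
  have h0 : (0 : ℝ) < p := by linarith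
  have h2 : (0 : ℝ) < (p : ℝ) - 1 := by linarith
  have hlt : ∀ c ∈ Cl p, c < p := fun c hc => Finset.mem_range.1 (hCl.1 hc)
  have hE : (∑ c ∈ range p, h p c) / (p : ℝ) = 1 + ∑ c ∈ Cl p, (h p c - 1) * (1 / (p : ℝ)) := by
    have e1 : ∑ c ∈ range p, (h p c - 1) = ∑ c ∈ Cl p, (h p c - 1) := by
      symm
      apply Finset.sum_subset hCl.1
      intro c hc hc'
      rw [hCl.2 c (Finset.mem_range.1 hc) hc', sub_self]
    have e2 : ∑ c ∈ range p, h p c = (p : ℝ) + ∑ c ∈ Cl p, (h p c - 1) := by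
      rw [← e1, Finset.sum_sub_distrib, Finset.sum_const, Finset.card_range, nsmul_eq_mul, mul_one]
      ring
    rw [e2, ← Finset.sum_mul]
    field_simp
  have hκ : 1 + ∑ c ∈ Cl p, |h p c - 1| * κ p c ≤ 1 + aL (Cl p) (h p) p := by
    unfold aL
    apply add_le_add le_rfl
    apply Finset.sum_le_sum
    intro c hc
    rw [div_eq_mul_one_div]
    exact mul_le_mul_of_nonneg_left (hD p hp c (hlt c hc)).2.1 (abs_nonneg _)
  refine ⟨?_, ?_, ?_, hκ⟩
  · refine le_trans ?_ hκ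
    unfold Et
    refine (abs_add_le _ _).trans ?_
    rw [abs_one]
    apply add_le_add le_rfl
    refine (Finset.abs_sum_le_sum_abs _ _).trans ?_
    apply Finset.sum_le_sum
    intro c hc
    rw [abs_mul, abs_of_nonneg (hD p hp c (hlt c hc)).1]
  · rw [hE]
    refine (abs_add_le _ _).trans ?_
    rw [abs_one]
    apply add_le_add le_rfl
    refine (Finset.abs_sum_le_sum_abs _ _).trans ?_
    unfold aL
    apply Finset.sum_le_sum
    intro c _
    have e5 : |h p c - 1| / ((p : ℝ) - 1) = |h p c - 1| * (1 / ((p : ℝ) - 1)) := by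
      rw [mul_one_div]
    rw [abs_mul, abs_of_nonneg (by positivity : (0 : ℝ) ≤ 1 / (p : ℝ)), e5]
    apply mul_le_mul_of_nonneg_left _ (abs_nonneg _)
    have h3 : 1 / (p : ℝ) ≤ 1 / ((p : ℝ) - 1) := one_div_le_one_div_of_le h2 (by linarith)
    exact h3
  · rw [hE]
    unfold Et dL
    have e1 : 1 + ∑ c ∈ Cl p, (h p c - 1) * κ p c - (1 + ∑ c ∈ Cl p, (h p c - 1) * (1 / (p : ℝ))) =
        ∑ c ∈ Cl p, (h p c - 1) * (κ p c - 1 / (p : ℝ)) := by
      rw [add_sub_add_left_eq_sub, ← Finset.sum_sub_distrib]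
      apply Finset.sum_congr rfl
      intro c _
      ring
    rw [e1]
    refine (Finset.abs_sum_le_sum_abs _ _).trans ?_
    apply Finset.sum_le_sum
    intro c hc
    rw [abs_mul]
    apply mul_le_mul_of_nonneg_left _ (abs_nonneg _)
    obtain ⟨k0, k1, k2⟩ := hD p hp c (hlt c hc)
    by_cases hce : c = e p
    · rw [if_pos hce, abs_le]
      have h3 : 1 / (p : ℝ) ≤ 1 / ((p : ℝ) - 1) := one_div_le_one_div_of_le h2 (by linarith)
      have h4 : 0 < 1 / (p : ℝ) := by positivity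
      constructor <;> linarith
    · rw [if_neg hce]
      exact k2 hce

theorem expandW_of (hFL : FLem) : ExpandW := by
  intro n
  obtain ⟨C0, hC0, hF⟩ := flemAt_of hFL n
  set K' : ℕ := 4 * (n + 1) ^ 2 with hK'
  set K : ℕ := C0 + n + K' + ⌈Real.exp K'⌉₊ + (2 * n + 2) with hK
  refine ⟨K, by omega, ?_⟩
  intro b J z0 D0 D2 P1 P2 ρ κ e w M A err U Q h Cl δ hU hKb hKz hP1 hP2 hD hw hA hE hQ hQD hD0 hρ
    hCl hδ hδ1
  have hCK : C0 ≤ K := by omega
  have hnK : n ≤ K := by omega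
  have hpow : (2 ^ 2 ^ J) ^ (C0 * b) ≤ (2 ^ 2 ^ J) ^ (K * b) :=
    Nat.pow_le_pow_right (by positivity) (Nat.mul_le_mul_right b hCK)
  have hD0' : (2 ^ 2 ^ J) ^ (C0 * b) * D2 ≤ D0 := (Nat.mul_le_mul_right D2 hpow).trans hD0
  have hQp : ∀ p ∈ Q, p.Prime := fun p hp => (hP2 p (hQ hp)).1
  set VUx := ∏ p ∈ P1, (1 - GU κ ρ U p) with hVU
  obtain ⟨v1, v2, v3⟩ := VU hD hU P1 Finset.subset_union_left (fun p hp => (hP1 p hp).1)
    (fun p hp => by have := (hP1 p hp).2.1; omega) hρ δ hδ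
  rw [← hVU] at v1 v2
  set v := V1 P1 ^ U.card with hv
  have hδ0 : 0 ≤ δ := by
    refine le_trans ?_ hδ
    unfold dl
    apply add_nonneg
    · exact Finset.sum_nonneg fun p _ => by positivity
    · apply Finset.sum_nonneg
      intro p hp
      have : (1 : ℝ) < p := by exact_mod_cast (hP1 p (Finset.mem_filter.1 hp).1).1.one_lt
      have : (0 : ℝ) < (p : ℝ) - 1 := by linarith
      positivity
  -- nonnegativity of the errors
  have herr : ∀ T1 ⊆ P1, ∏ p ∈ T1, p ≤ (2 ^ 2 ^ J) ^ (K * b) → ∀ T2 ⊆ Q, 0 ≤ err (T1 ∪ T2) := by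
    intro T1 hT1 hT1b T2 hT2
    have hdisj : Disjoint T1 T2 := by
      rw [Finset.disjoint_left]
      intro p hp hq
      have h1 := (hP1 p (hT1 hp)).2.2
      have h2 := (hP2 p (hQ (hT2 hq))).2.2
      omega
    have hT2D : ∏ p ∈ T2, p ≤ D2 := by
      refine le_trans ?_ hQD
      exact Finset.prod_le_prod_of_subset_of_one_le' hT2 fun p hp _ => (hQp p hp).pos
    refine (abs_nonneg _).trans (hE (T1 ∪ T2)
      (Finset.union_subset_union hT1 (hT2.trans hQ)) ?_ (fun _ => 0) ?_)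
    · rw [Finset.prod_union hdisj]
      exact (Nat.mul_le_mul hT1b hT2D).trans hD0
    · intro p hp
      rcases Finset.mem_union.1 hp with h1 | h1
      · exact (hP1 p (hT1 h1)).1.pos
      · exact (hQp p (hT2 h1)).pos
  have hES : ∀ T2 ⊆ Q, ES n C0 J b P1 err T2 ≤ ES K K J b P1 err T2 := by
    intro T2 hT2
    unfold ES
    calc ∑ T1 ∈ P1.powerset.filter (fun T : Finset ℕ => ∏ p ∈ T, p ≤ (2 ^ 2 ^ J) ^ (C0 * b)),
          (n : ℝ) ^ T1.card * err (T1 ∪ T2)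
        ≤ ∑ T1 ∈ P1.powerset.filter (fun T : Finset ℕ => ∏ p ∈ T, p ≤ (2 ^ 2 ^ J) ^ (C0 * b)),
          (K : ℝ) ^ T1.card * err (T1 ∪ T2) := by
          apply Finset.sum_le_sum
          intro T1 hT1
          rw [Finset.mem_filter, Finset.mem_powerset] at hT1
          apply mul_le_mul_of_nonneg_right _ (herr T1 hT1.1 (hT1.2.trans hpow) T2 hT2)
          apply pow_le_pow_left₀ (Nat.cast_nonneg n)
          exact_mod_cast hnK
      _ ≤ _ := by
          apply Finset.sum_le_sum_of_subset_of_nonneg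
          · intro T1 hT1
            rw [Finset.mem_filter] at hT1 ⊢
            exact ⟨hT1.1, hT1.2.trans hpow⟩
          · intro T1 hT1 _
            rw [Finset.mem_filter, Finset.mem_powerset] at hT1
            exact mul_nonneg (by positivity) (herr T1 hT1.1 hT1.2 T2 hT2)
  -- the expansion
  rw [expand w M P1 U Q ρ h Cl (fun p hp => (hQp p hp).pos) hCl]
  set WT : (T : Finset ℕ) → ((p : ℕ) → p ∈ T → ℕ) → ℝ := fun T c =>
    ∑ m ∈ (range M).filter (fun m => ∀ p ∈ T, m % p = extf T c p),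
      (if ∀ p ∈ P1, m % p ∉ U.image (ρ p) then w m else 0) with hWT
  have hW : ∀ T ∈ Q.powerset, ∀ c ∈ T.pi Cl,
      |WT T c - A * (∏ p ∈ T, κ p (extf T c p)) * VUx| ≤
      (1 / 2 : ℝ) ^ b * (A * (∏ p ∈ T, κ p (extf T c p)) * VUx) +
        ((J : ℝ) + 2) * ES K K J b P1 err T := by
    intro T hT c hc
    rw [Finset.mem_powerset] at hT
    have hTD : ∏ p ∈ T, p ≤ D2 := by
      refine le_trans ?_ hQD
      exact Finset.prod_le_prod_of_subset_of_one_le' hT fun p hp _ => (hQp p hp).pos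
    have h1 := fl_apply hF hU (hCK.trans hKb) (hCK.trans hKz) hP1 hP2 hD hw hA hE hD0' hρ T
      (hT.trans hQ) hTD (extf T c) (fun p hp => by
        have := (hCl p (hT hp)).1 (extf_mem hc hp)
        exact Finset.mem_range.1 this)
    refine h1.trans ?_
    have h2 := mul_le_mul_of_nonneg_left (hES T hT) (by positivity : (0 : ℝ) ≤ (J : ℝ) + 2)
    linarith
  -- main term
  have hmain : ∑ T ∈ Q.powerset, ∑ c ∈ T.pi Cl, (∏ p ∈ T, (h p (extf T c p) - 1)) *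
      (A * (∏ p ∈ T, κ p (extf T c p)) * VUx) = A * VUx * ∏ p ∈ Q, Et κ h Cl p := by
    unfold Et
    rw [← sum_powerset_pi Q Cl (fun p c => (h p c - 1) * κ p c), Finset.mul_sum]
    apply Finset.sum_congr rfl
    intro T _
    rw [Finset.mul_sum]
    apply Finset.sum_congr rfl
    intro c _
    rw [Finset.prod_mul_distrib]
    ring
  have habs : ∑ T ∈ Q.powerset, ∑ c ∈ T.pi Cl, (∏ p ∈ T, |h p (extf T c p) - 1|) *
      (A * (∏ p ∈ T, κ p (extf T c p)) * VUx) =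
      A * VUx * ∏ p ∈ Q, (1 + ∑ c ∈ Cl p, |h p c - 1| * κ p c) := by
    rw [← sum_powerset_pi Q Cl (fun p c => |h p c - 1| * κ p c), Finset.mul_sum]
    apply Finset.sum_congr rfl
    intro T _
    rw [Finset.mul_sum]
    apply Finset.sum_congr rfl
    intro c _
    rw [Finset.prod_mul_distrib]
    ring
  have hsL : ∀ T : Finset ℕ, ∑ c ∈ T.pi Cl, (∏ p ∈ T, |h p (extf T c p) - 1|) =
      ∏ p ∈ T, sL (Cl p) (h p) := by
    intro T
    unfold sL
    rw [prod_sum' T Cl (fun p c => |h p c - 1|)]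
  -- first step
  have step1 : |∑ T ∈ Q.powerset, ∑ c ∈ T.pi Cl, (∏ p ∈ T, (h p (extf T c p) - 1)) * WT T c -
      A * VUx * ∏ p ∈ Q, Et κ h Cl p| ≤
      (1 / 2 : ℝ) ^ b * (A * VUx * ∏ p ∈ Q, (1 + ∑ c ∈ Cl p, |h p c - 1| * κ p c)) +
      ((J : ℝ) + 2) * ∑ T2 ∈ Q.powerset, (∏ p ∈ T2, sL (Cl p) (h p)) * ES K K J b P1 err T2 := by
    rw [← hmain, ← Finset.sum_sub_distrib]
    calc |∑ T ∈ Q.powerset, (∑ c ∈ T.pi Cl, (∏ p ∈ T, (h p (extf T c p) - 1)) * WT T c -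
          ∑ c ∈ T.pi Cl, (∏ p ∈ T, (h p (extf T c p) - 1)) *
            (A * (∏ p ∈ T, κ p (extf T c p)) * VUx))|
        ≤ ∑ T ∈ Q.powerset, |∑ c ∈ T.pi Cl, (∏ p ∈ T, (h p (extf T c p) - 1)) * WT T c -
          ∑ c ∈ T.pi Cl, (∏ p ∈ T, (h p (extf T c p) - 1)) *
            (A * (∏ p ∈ T, κ p (extf T c p)) * VUx)| := Finset.abs_sum_le_sum_abs _ _
      _ ≤ ∑ T ∈ Q.powerset, ∑ c ∈ T.pi Cl, (∏ p ∈ T, |h p (extf T c p) - 1|) *
          ((1 / 2 : ℝ) ^ b * (A * (∏ p ∈ T, κ p (extf T c p)) * VUx) +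
            ((J : ℝ) + 2) * ES K K J b P1 err T) := by
          apply Finset.sum_le_sum
          intro T hT
          rw [← Finset.sum_sub_distrib]
          refine (Finset.abs_sum_le_sum_abs _ _).trans ?_
          apply Finset.sum_le_sum
          intro c hc
          rw [← mul_sub, abs_mul, Finset.abs_prod]
          exact mul_le_mul_of_nonneg_left (hW T hT c hc)
            (Finset.prod_nonneg fun _ _ => abs_nonneg _)
      _ = (1 / 2 : ℝ) ^ b * ∑ T ∈ Q.powerset, ∑ c ∈ T.pi Cl, (∏ p ∈ T, |h p (extf T c p) - 1|) *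
          (A * (∏ p ∈ T, κ p (extf T c p)) * VUx) +
          ((J : ℝ) + 2) * ∑ T ∈ Q.powerset, (∑ c ∈ T.pi Cl, (∏ p ∈ T, |h p (extf T c p) - 1|)) *
            ES K K J b P1 err T := by
          rw [Finset.mul_sum, Finset.mul_sum, ← Finset.sum_add_distrib]
          apply Finset.sum_congr rfl
          intro T _
          rw [Finset.mul_sum, Finset.sum_mul, Finset.mul_sum, ← Finset.sum_add_distrib]
          apply Finset.sum_congr rfl
          intro c _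
          ring
      _ = _ := by
          rw [habs]
          simp_rw [hsL]
  -- products
  have hb := fun p (hp : p ∈ Q) => Et_bounds hD (h := h) (Cl := Cl)
    (Finset.mem_union_right P1 (hQ hp)) (hQp p hp) (hCl p hp)
  obtain ⟨d1, d2, d3⟩ := prod_diff Q (Et κ h Cl) (fun p => (∑ c ∈ range p, h p c) / (p : ℝ))
    (fun p => 1 + aL (Cl p) (h p) p) (fun p => dL (Cl p) (h p) (e p) p)
    (fun p hp => (hb p hp).1) (fun p hp => (hb p hp).2.1) (fun p hp => (hb p hp).2.2.1)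
  set PB := ∏ p ∈ Q, (1 + aL (Cl p) (h p) p) with hPB
  set PD := ∏ p ∈ Q, (1 + aL (Cl p) (h p) p + dL (Cl p) (h p) (e p) p) with hPD
  have hPB0 : 0 ≤ PB := (abs_nonneg _).trans d2
  have hPκ : ∏ p ∈ Q, (1 + ∑ c ∈ Cl p, |h p c - 1| * κ p c) ≤ PB := by
    apply Finset.prod_le_prod
    · intro p hp
      have : 0 ≤ ∑ c ∈ Cl p, |h p c - 1| * κ p c := Finset.sum_nonneg fun c hc =>
        mul_nonneg (abs_nonneg _) (hD p (Finset.mem_union_right _ (hQ hp)) c
          (Finset.mem_range.1 ((hCl p hp).1 hc))).1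
      linarith
    · intro p hp
      exact (hb p hp).2.2.2
  have step2 : |A * VUx * ∏ p ∈ Q, Et κ h Cl p -
      A * v * ∏ p ∈ Q, ((∑ c ∈ range p, h p c) / (p : ℝ))| ≤
      A * (v * (Real.exp (4 * ((n : ℝ) + 1) ^ 2 * δ) - 1)) * PB + A * v * (PD - PB) := by
    have e1 : A * VUx * ∏ p ∈ Q, Et κ h Cl p -
        A * v * ∏ p ∈ Q, ((∑ c ∈ range p, h p c) / (p : ℝ)) =
        A * (VUx - v) * ∏ p ∈ Q, Et κ h Cl p +
        A * v * (∏ p ∈ Q, Et κ h Cl p - ∏ p ∈ Q, ((∑ c ∈ range p, h p c) / (p : ℝ))) := by ring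
    rw [e1]
    refine (abs_add_le _ _).trans ?_
    rw [abs_mul, abs_mul, abs_mul, abs_mul, abs_of_nonneg hA, abs_of_nonneg v3]
    exact add_le_add (mul_le_mul (mul_le_mul_of_nonneg_left v1 hA) d2 (abs_nonneg _)
      (mul_nonneg hA ((abs_nonneg _).trans v1))) (mul_le_mul_of_nonneg_left d1 (mul_nonneg hA v3))
  -- constants
  have hK'r : (4 * ((n : ℝ) + 1) ^ 2) = (K' : ℝ) := by rw [hK']; push_cast; ring
  rw [hK'r] at v1 step2
  have hVUv : VUx ≤ v * Real.exp K' := by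
    have h1 := (abs_le.1 v1).2
    have h2 : Real.exp (K' * δ) ≤ Real.exp K' := by
      apply Real.exp_le_exp.2
      have : (0 : ℝ) ≤ K' := Nat.cast_nonneg _
      nlinarith
    have h3 := mul_le_mul_of_nonneg_left h2 v3
    linarith
  have hexpK : Real.exp K' ≤ K := by
    have h1 := Nat.le_ceil (Real.exp K')
    have h2 : (⌈Real.exp K'⌉₊ : ℝ) ≤ (K : ℝ) := by
      have : ⌈Real.exp K'⌉₊ ≤ K := by omega
      exact_mod_cast this
    exact h1.trans h2
  have hK1 : (1 : ℝ) ≤ K := by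
    have : 1 ≤ K := by omega
    exact_mod_cast this
  have hexpδ : Real.exp (K' * δ) ≤ Real.exp (K * δ) := by
    apply Real.exp_le_exp.2
    apply mul_le_mul_of_nonneg_right _ hδ0
    have : K' ≤ K := by omega
    exact_mod_cast this
  have hexp1 : 1 ≤ Real.exp (K * δ) := Real.one_le_exp (by positivity)
  have hhalf : (0 : ℝ) ≤ (1 / 2 : ℝ) ^ b := by positivity
  have hfin1 : (1 / 2 : ℝ) ^ b * (A * VUx * ∏ p ∈ Q, (1 + ∑ c ∈ Cl p, |h p c - 1| * κ p c)) ≤
      A * v * ((1 / 2 : ℝ) ^ b * K * PB) := by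
    have h1 : A * VUx * ∏ p ∈ Q, (1 + ∑ c ∈ Cl p, |h p c - 1| * κ p c) ≤ A * (v * K) * PB := by
      apply mul_le_mul _ hPκ _ (by positivity)
      · apply mul_le_mul_of_nonneg_left _ hA
        exact hVUv.trans (mul_le_mul_of_nonneg_left hexpK v3)
      · apply Finset.prod_nonneg
        intro p hp
        have : 0 ≤ ∑ c ∈ Cl p, |h p c - 1| * κ p c := Finset.sum_nonneg fun c hc =>
          mul_nonneg (abs_nonneg _) (hD p (Finset.mem_union_right _ (hQ hp)) c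
            (Finset.mem_range.1 ((hCl p hp).1 hc))).1
        linarith
    calc (1 / 2 : ℝ) ^ b * (A * VUx * ∏ p ∈ Q, (1 + ∑ c ∈ Cl p, |h p c - 1| * κ p c))
        ≤ (1 / 2 : ℝ) ^ b * (A * (v * K) * PB) := mul_le_mul_of_nonneg_left h1 hhalf
      _ = _ := by ring
  have hfin2 : A * (v * (Real.exp (K' * δ) - 1)) * PB ≤ A * v * (K * (Real.exp (K * δ) - 1) * PB) := by
    have h1 : Real.exp (K' * δ) - 1 ≤ K * (Real.exp (K * δ) - 1) := by nlinarith
    have h2 := mul_le_mul_of_nonneg_left (mul_le_mul_of_nonneg_right h1 hPB0) (mul_nonneg hA v3)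
    linarith
  have hES' : ∀ T2, ES K K J b P1 err T2 = ∑ T1 ∈ P1.powerset.filter
      (fun T : Finset ℕ => ∏ p ∈ T, p ≤ (2 ^ 2 ^ J) ^ (K * b)), (K : ℝ) ^ T1.card * err (T1 ∪ T2) :=
    fun T2 => rfl
  simp_rw [← hES']
  have e3 : ∑ T ∈ Q.powerset, ∑ c ∈ T.pi Cl, (∏ p ∈ T, (h p (extf T c p) - 1)) * WT T c -
        A * v * ∏ p ∈ Q, ((∑ c ∈ range p, h p c) / (p : ℝ)) =
      (∑ T ∈ Q.powerset, ∑ c ∈ T.pi Cl, (∏ p ∈ T, (h p (extf T c p) - 1)) * WT T c -
        A * VUx * ∏ p ∈ Q, Et κ h Cl p) + (A * VUx * ∏ p ∈ Q, Et κ h Cl p -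
        A * v * ∏ p ∈ Q, ((∑ c ∈ range p, h p c) / (p : ℝ))) := by ring
  rw [e3]
  refine (abs_add_le _ _).trans ?_
  have hfinal := add_le_add step1 step2
  refine hfinal.trans ?_
  have e4 : A * v * (K * (Real.exp (K * δ) - 1 + (1 / 2 : ℝ) ^ b) * PB + (PD - PB)) =
      A * v * (K * (Real.exp (K * δ) - 1) * PB) + A * v * ((1 / 2 : ℝ) ^ b * K * PB) +
        A * v * (PD - PB) := by ring
  rw [e4]
  linarith

end Pool.Agent.H488R2.EN2a
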