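import Mathlib
import Pool.Agent.H410R2.ENIface2

/-! Task EN2a of helper410 (helper488), part 1: product expansions. -/

set_option autoImplicit false

open Finset

namespace Pool.Agent.H488R2.EN2a

open Pool.Agent.H410R2.AC Pool.Agent.H410R2.EN

/-- total extension of a dependent choice function -/
def extf (T : Finset ℕ) (c : (p : ℕ) → p ∈ T → ℕ) (p : ℕ) : ℕ := if h : p ∈ T then c p h else 0

lemma extf_mem {T : Finset ℕ} {Cl : ℕ → Finset ℕ} {c : (p : ℕ) → p ∈ T → ℕ} (hc : c ∈ T.pi Cl)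
    {p : ℕ} (hp : p ∈ T) : extf T c p ∈ Cl p := by
  unfold extf
  rw [dif_pos hp]
  exact Finset.mem_pi.1 hc p hp

lemma prod_sum' (T : Finset ℕ) (Cl : ℕ → Finset ℕ) (f : ℕ → ℕ → ℝ) :
    ∏ p ∈ T, ∑ c ∈ Cl p, f p c = ∑ c ∈ T.pi Cl, ∏ p ∈ T, f p (extf T c p) := by
  rw [Finset.prod_sum]
  apply Finset.sum_congr rfl
  intro c _
  rw [← Finset.prod_attach T (fun p => f p (extf T c p))]
  apply Finset.prod_congr rfl
  intro x _
  unfold extf
  rw [dif_pos x.2]

lemma sum_powerset_pi (Q : Finset ℕ) (Cl : ℕ → Finset ℕ) (f : ℕ → ℕ → ℝ) :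
    ∑ T ∈ Q.powerset, ∑ c ∈ T.pi Cl, ∏ p ∈ T, f p (extf T c p) =
      ∏ p ∈ Q, (1 + ∑ c ∈ Cl p, f p c) := by
  rw [Finset.prod_one_add]
  apply Finset.sum_congr rfl
  intro T _
  rw [prod_sum']

lemma class_decomp (T : Finset ℕ) (Cl : ℕ → Finset ℕ) (g : ℕ → ℕ → ℝ) (m : ℕ) :
    ∑ c ∈ T.pi Cl, (∏ p ∈ T, g p (extf T c p)) * (if ∀ p ∈ T, m % p = extf T c p then 1 else 0) =
      ∏ p ∈ T, (if m % p ∈ Cl p then g p (m % p) else 0) := by
  have h1 : ∀ p ∈ T, (if m % p ∈ Cl p then g p (m % p) else 0) =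
      ∑ c ∈ Cl p, g p c * (if m % p = c then 1 else 0) := by
    intro p _
    simp only [mul_ite, mul_one, mul_zero]
    rw [Finset.sum_ite_eq]
  rw [Finset.prod_congr rfl h1, prod_sum' T Cl (fun p c => g p c * (if m % p = c then 1 else 0))]
  apply Finset.sum_congr rfl
  intro c _
  rw [Finset.prod_mul_distrib, Finset.prod_boole]

/-- mass with classes fixed on `T2` and lying in given sets on `T1` -/
lemma mass_hit (w : ℕ → ℝ) (M : ℕ) (T1 T2 : Finset ℕ) (hd : Disjoint T1 T2) (c : ℕ → ℕ)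
    (Cl : ℕ → Finset ℕ) :
    ∑ m ∈ (range M).filter (fun m => ∀ p ∈ T2, m % p = c p),
        (if ∀ p ∈ T1, m % p ∈ Cl p then w m else 0) =
      ∑ c1 ∈ T1.pi Cl, ∑ m ∈ (range M).filter
        (fun m => ∀ p ∈ T1 ∪ T2, m % p = if p ∈ T1 then extf T1 c1 p else c p), w m := by
  simp_rw [Finset.sum_filter]
  rw [Finset.sum_comm]
  apply Finset.sum_congr rfl
  intro m _
  have h1 : ∀ c1 : (p : ℕ) → p ∈ T1 → ℕ,
      (∀ p ∈ T1 ∪ T2, m % p = if p ∈ T1 then extf T1 c1 p else c p) ↔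
        (∀ p ∈ T1, m % p = extf T1 c1 p) ∧ (∀ p ∈ T2, m % p = c p) := by
    intro c1
    constructor
    · intro h
      refine ⟨fun p hp => ?_, fun p hp => ?_⟩
      · have := h p (Finset.mem_union_left _ hp)
        rwa [if_pos hp] at this
      · have := h p (Finset.mem_union_right _ hp)
        rwa [if_neg (fun hp1 => Finset.disjoint_left.1 hd hp1 hp)] at this
    · rintro ⟨h2, h3⟩ p hp
      by_cases hp1 : p ∈ T1
      · rw [if_pos hp1]
        exact h2 p hp1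
      · rw [if_neg hp1]
        exact h3 p ((Finset.mem_union.1 hp).resolve_left hp1)
  simp_rw [h1]
  by_cases h2 : ∀ p ∈ T2, m % p = c p
  · rw [if_pos h2]
    have h3 := class_decomp T1 Cl (fun _ _ => 1) m
    simp only [Finset.prod_const_one, one_mul] at h3
    rw [Finset.prod_boole] at h3
    have h4 : ∑ c1 ∈ T1.pi Cl,
        (if (∀ p ∈ T1, m % p = extf T1 c1 p) ∧ (∀ p ∈ T2, m % p = c p) then w m else 0) =
        w m * ∑ c1 ∈ T1.pi Cl, (if ∀ p ∈ T1, m % p = extf T1 c1 p then (1 : ℝ) else 0) := by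
      rw [Finset.mul_sum]
      apply Finset.sum_congr rfl
      intro c1 _
      by_cases h5 : ∀ p ∈ T1, m % p = extf T1 c1 p
      · rw [if_pos ⟨h5, h2⟩, if_pos h5, mul_one]
      · rw [if_neg (fun h => h5 h.1), if_neg h5, mul_zero]
    rw [h4, h3]
    by_cases h5 : ∀ p ∈ T1, m % p ∈ Cl p
    · rw [if_pos h5, if_pos h5, mul_one]
    · rw [if_neg h5, if_neg h5, mul_zero]
  · rw [if_neg h2]
    symm
    apply Finset.sum_eq_zero
    intro c1 _
    rw [if_neg (fun h => h2 h.2)]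

/-- difference of two products -/
lemma prod_diff (Q : Finset ℕ) (x y B d : ℕ → ℝ) (hx : ∀ p ∈ Q, |x p| ≤ B p)
    (hy : ∀ p ∈ Q, |y p| ≤ B p) (hd : ∀ p ∈ Q, |x p - y p| ≤ d p) :
    |∏ p ∈ Q, x p - ∏ p ∈ Q, y p| ≤ ∏ p ∈ Q, (B p + d p) - ∏ p ∈ Q, B p ∧
      |∏ p ∈ Q, x p| ≤ ∏ p ∈ Q, B p ∧ ∏ p ∈ Q, B p ≤ ∏ p ∈ Q, (B p + d p) := by
  classical
  induction Q using Finset.induction_on with
  | empty => simp
  | insert a s ha ih =>
    obtain ⟨h1, h2, h3⟩ := ih (fun p hp => hx p (Finset.mem_insert_of_mem hp))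
      (fun p hp => hy p (Finset.mem_insert_of_mem hp))
      (fun p hp => hd p (Finset.mem_insert_of_mem hp))
    rw [Finset.prod_insert ha, Finset.prod_insert ha, Finset.prod_insert ha, Finset.prod_insert ha]
    have hxa := hx a (Finset.mem_insert_self a s)
    have hya := hy a (Finset.mem_insert_self a s)
    have hda := hd a (Finset.mem_insert_self a s)
    have hB0 : 0 ≤ B a := (abs_nonneg _).trans hxa
    have hd0 : 0 ≤ d a := (abs_nonneg _).trans hda
    have hP0 : 0 ≤ ∏ p ∈ s, B p := (abs_nonneg _).trans h2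
    refine ⟨?_, ?_, ?_⟩
    · have e : x a * ∏ p ∈ s, x p - y a * ∏ p ∈ s, y p =
          (x a - y a) * ∏ p ∈ s, x p + y a * (∏ p ∈ s, x p - ∏ p ∈ s, y p) := by ring
      rw [e]
      calc |(x a - y a) * ∏ p ∈ s, x p + y a * (∏ p ∈ s, x p - ∏ p ∈ s, y p)|
          ≤ |(x a - y a) * ∏ p ∈ s, x p| + |y a * (∏ p ∈ s, x p - ∏ p ∈ s, y p)| :=
            abs_add_le _ _
        _ = |x a - y a| * |∏ p ∈ s, x p| + |y a| * |∏ p ∈ s, x p - ∏ p ∈ s, y p| := by
            rw [abs_mul, abs_mul]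
        _ ≤ d a * ∏ p ∈ s, B p + B a * (∏ p ∈ s, (B p + d p) - ∏ p ∈ s, B p) :=
            add_le_add (mul_le_mul hda h2 (abs_nonneg _) hd0)
              (mul_le_mul hya h1 (abs_nonneg _) hB0)
        _ ≤ (B a + d a) * ∏ p ∈ s, (B p + d p) - B a * ∏ p ∈ s, B p := by
            nlinarith [mul_le_mul_of_nonneg_left h3 hd0]
    · rw [abs_mul]
      exact mul_le_mul hxa h2 (abs_nonneg _) hB0
    · exact mul_le_mul (by linarith) h3 hP0 (by linarith)

/-- product of factors close to one -/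
lemma prod_near_one (P : Finset ℕ) (r x : ℕ → ℝ) (h : ∀ p ∈ P, |r p - 1| ≤ x p) :
    |∏ p ∈ P, r p - 1| ≤ Real.exp (∑ p ∈ P, x p) - 1 := by
  have key : ∀ s : Finset ℕ, s ⊆ P → |∏ p ∈ s, r p - 1| ≤ ∏ p ∈ s, (1 + x p) - 1 ∧
      |∏ p ∈ s, r p| ≤ ∏ p ∈ s, (1 + x p) := by
    classical
    intro s
    induction s using Finset.induction_on with
    | empty => intro _; simp
    | insert a s ha ih =>
      intro hs
      obtain ⟨h3, h4⟩ := ih ((Finset.subset_insert a s).trans hs)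
      have h5 := h a (hs (Finset.mem_insert_self a s))
      have hx0 : 0 ≤ x a := (abs_nonneg _).trans h5
      rw [Finset.prod_insert ha, Finset.prod_insert ha]
      have h6 : |r a| ≤ 1 + x a := by
        rw [abs_le] at h5 ⊢
        constructor <;> linarith
      refine ⟨?_, ?_⟩
      · have e : r a * ∏ p ∈ s, r p - 1 = (r a - 1) * ∏ p ∈ s, r p + (∏ p ∈ s, r p - 1) := by ring
        rw [e]
        calc |(r a - 1) * ∏ p ∈ s, r p + (∏ p ∈ s, r p - 1)|
            ≤ |(r a - 1) * ∏ p ∈ s, r p| + |∏ p ∈ s, r p - 1| := abs_add_le _ _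
          _ = |r a - 1| * |∏ p ∈ s, r p| + |∏ p ∈ s, r p - 1| := by rw [abs_mul]
          _ ≤ x a * ∏ p ∈ s, (1 + x p) + (∏ p ∈ s, (1 + x p) - 1) :=
              add_le_add (mul_le_mul h5 h4 (abs_nonneg _) hx0) h3
          _ = _ := by ring
      · rw [abs_mul]
        exact mul_le_mul h6 h4 (abs_nonneg _) (by linarith)
  have h3 := (key P (Finset.Subset.refl P)).1
  refine h3.trans ?_
  have h4 : ∏ p ∈ P, (1 + x p) ≤ Real.exp (∑ p ∈ P, x p) := by
    rw [Real.exp_sum]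
    apply Finset.prod_le_prod
    · intro p hp
      have := (abs_nonneg _).trans (h p hp)
      linarith
    · intro p _
      rw [add_comm]
      exact Real.add_one_le_exp _
  linarith

end Pool.Agent.H488R2.EN2a
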