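import Pool.Agent.H488R2.EN.A

/-! Task EN2a of helper410 (helper488), part 2: the local densities. -/

set_option autoImplicit false

open Finset

namespace Pool.Agent.H488R2.EN2a

open Pool.Agent.H410R2.AC Pool.Agent.H410R2.EN

/-- density of the hit classes -/
noncomputable def GU (κ : ℕ → ℕ → ℝ) (ρ : ℕ → ℕ → ℕ) (U : Finset ℕ) (p : ℕ) : ℝ :=
  ∑ c ∈ U.image (ρ p), κ p c

lemma GU_bound {κ : ℕ → ℕ → ℝ} {e : ℕ → ℕ} {P : Finset ℕ} (hD : Dens κ e P) {ρ : ℕ → ℕ → ℕ}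
    {U : Finset ℕ} {n : ℕ} (hU : U.card ≤ n) {p : ℕ} (hp : p ∈ P) (hpp : p.Prime)
    (hρ : ∀ a ∈ U, ρ p a < p) : 0 ≤ GU κ ρ U p ∧ GU κ ρ U p ≤ n / ((p : ℝ) - 1) := by
  have h1 : (1 : ℝ) < p := by exact_mod_cast hpp.one_lt
  have h2 : (0 : ℝ) < (p : ℝ) - 1 := by linarith
  have hc : ∀ c ∈ U.image (ρ p), c < p := by
    intro c hc
    obtain ⟨a, ha, rfl⟩ := Finset.mem_image.1 hc
    exact hρ a ha
  constructor
  · exact Finset.sum_nonneg fun c hc' => (hD p hp c (hc c hc')).1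
  · calc GU κ ρ U p ≤ ∑ c ∈ U.image (ρ p), 1 / ((p : ℝ) - 1) :=
          Finset.sum_le_sum fun c hc' => (hD p hp c (hc c hc')).2.1
      _ = (U.image (ρ p)).card * (1 / ((p : ℝ) - 1)) := by
          rw [Finset.sum_const, nsmul_eq_mul]
      _ ≤ n * (1 / ((p : ℝ) - 1)) := by
          apply mul_le_mul_of_nonneg_right _ (by positivity)
          exact_mod_cast (Finset.card_image_le).trans hU
      _ = n / ((p : ℝ) - 1) := by ring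

/-- `(1 - 1/p)^u` is `1 - u/p` up to `u^2/(p-1)^2` -/
lemma pow_approx (p u : ℕ) (hp : 1 < p) :
    1 - (u : ℝ) / p ≤ (1 - 1 / (p : ℝ)) ^ u ∧
      (1 - 1 / (p : ℝ)) ^ u ≤ 1 - (u : ℝ) / p + (u : ℝ) ^ 2 / ((p : ℝ) - 1) ^ 2 := by
  have h1 : (1 : ℝ) < p := by exact_mod_cast hp
  have h0 : (0 : ℝ) < p := by linarith
  have h2 : (0 : ℝ) < (p : ℝ) - 1 := by linarith
  have hx1 : 1 / (p : ℝ) < 1 := by rw [div_lt_one h0]; exact h1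
  have hx0 : 0 < 1 / (p : ℝ) := by positivity
  have key : 1 - (u : ℝ) * (1 / p) ≤ (1 - 1 / (p : ℝ)) ^ u := by
    have := one_add_mul_le_pow (a := -(1 / (p : ℝ))) (by linarith) u
    calc 1 - (u : ℝ) * (1 / p) = 1 + (u : ℝ) * -(1 / (p : ℝ)) := by ring
      _ ≤ (1 + -(1 / (p : ℝ))) ^ u := this
      _ = _ := by ring
  have key2 : (1 - 1 / (p : ℝ)) ^ u ≤ 1 - (u : ℝ) * (1 / p) + (u : ℝ) ^ 2 * (1 / (p : ℝ)) ^ 2 := by
    clear key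
    induction u with
    | zero => simp
    | succ u ih =>
      set x := 1 / (p : ℝ) with hx
      have hu : (0 : ℝ) ≤ u := Nat.cast_nonneg u
      have h3 : 0 ≤ 1 - x := by linarith
      rw [pow_succ]
      calc (1 - x) ^ u * (1 - x) ≤ (1 - (u : ℝ) * x + (u : ℝ) ^ 2 * x ^ 2) * (1 - x) :=
            mul_le_mul_of_nonneg_right ih h3
        _ = 1 - (u + 1) * x + (u ^ 2 + u) * x ^ 2 - u ^ 2 * x ^ 3 := by ring
        _ ≤ 1 - ((u + 1 : ℕ) : ℝ) * x + ((u + 1 : ℕ) : ℝ) ^ 2 * x ^ 2 := by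
            push_cast
            have h5 : 0 ≤ (u : ℝ) ^ 2 * x ^ 3 := by positivity
            have h6 : 0 ≤ (u + 1 : ℝ) * x ^ 2 := by positivity
            nlinarith
  constructor
  · calc 1 - (u : ℝ) / p = 1 - (u : ℝ) * (1 / p) := by ring
      _ ≤ _ := key
  · refine key2.trans ?_
    have h3 : (1 / (p : ℝ)) ^ 2 ≤ 1 / ((p : ℝ) - 1) ^ 2 := by
      rw [div_pow, one_pow]
      apply one_div_le_one_div_of_le (by positivity)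
      apply pow_le_pow_left₀ h2.le
      linarith
    have h4 : (u : ℝ) ^ 2 * (1 / (p : ℝ)) ^ 2 ≤ (u : ℝ) ^ 2 * (1 / ((p : ℝ) - 1) ^ 2) :=
      mul_le_mul_of_nonneg_left h3 (by positivity)
    calc 1 - (u : ℝ) * (1 / p) + (u : ℝ) ^ 2 * (1 / (p : ℝ)) ^ 2
        ≤ 1 - (u : ℝ) * (1 / p) + (u : ℝ) ^ 2 * (1 / ((p : ℝ) - 1) ^ 2) := by linarith
      _ = _ := by ring

/-- the ratio of the local factors -/
lemma ratio {κ : ℕ → ℕ → ℝ} {e : ℕ → ℕ} {P : Finset ℕ} (hD : Dens κ e P) {ρ : ℕ → ℕ → ℕ}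
    {U : Finset ℕ} {n : ℕ} (hU : U.card ≤ n) {p : ℕ} (hp : p ∈ P) (hpp : p.Prime)
    (hpn : 2 * n + 2 ≤ p) (hρ : ∀ a ∈ U, ρ p a < p) :
    0 < (1 - 1 / (p : ℝ)) ^ U.card ∧
    |(1 - GU κ ρ U p) / (1 - 1 / (p : ℝ)) ^ U.card - 1| ≤ (4 * ((n : ℝ) + 1) ^ 2) *
      (1 / ((p : ℝ) - 1) ^ 2 + if (∃ a ∈ U, ∃ b ∈ U, a ≠ b ∧ ρ p a = ρ p b) ∨
        ∃ a ∈ U, ρ p a = e p then 1 / ((p : ℝ) - 1) else 0) := by
  have h1 : (1 : ℝ) < p := by exact_mod_cast hpp.one_lt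
  have h0 : (0 : ℝ) < p := by linarith
  have h2 : (0 : ℝ) < (p : ℝ) - 1 := by linarith
  have hn0 : (0 : ℝ) ≤ n := Nat.cast_nonneg n
  have hpn' : 2 * (n : ℝ) + 2 ≤ p := by exact_mod_cast hpn
  obtain ⟨g0, g1⟩ := GU_bound hD hU hp hpp hρ
  obtain ⟨a1, a2⟩ := pow_approx p U.card hpp.one_lt
  have hu : (U.card : ℝ) ≤ n := by exact_mod_cast hU
  have hu0 : (0 : ℝ) ≤ U.card := Nat.cast_nonneg _
  set v := (1 - 1 / (p : ℝ)) ^ U.card with hv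
  have hx : (U.card : ℝ) / p ≤ 1 / 2 := by
    rw [div_le_iff₀ h0]
    linarith
  have hv2 : 1 / 2 ≤ v := by linarith
  have hv0 : 0 < v := by linarith
  have hv1 : v ≤ 1 := by
    apply pow_le_one₀
    · have : 1 / (p : ℝ) ≤ 1 := by rw [div_le_one h0]; exact h1.le
      linarith
    · have : 0 < 1 / (p : ℝ) := by positivity
      linarith
  refine ⟨hv0, ?_⟩
  have e1 : (1 - GU κ ρ U p) / v - 1 = (1 - GU κ ρ U p - v) / v := by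
    field_simp
  rw [e1, abs_div, abs_of_pos hv0, div_le_iff₀ hv0]
  -- it suffices to bound the numerator by half
  suffices h : |1 - GU κ ρ U p - v| ≤ (2 * ((n : ℝ) + 1) ^ 2) *
      (1 / ((p : ℝ) - 1) ^ 2 + if (∃ a ∈ U, ∃ b ∈ U, a ≠ b ∧ ρ p a = ρ p b) ∨
        ∃ a ∈ U, ρ p a = e p then 1 / ((p : ℝ) - 1) else 0) by
    refine h.trans ?_
    have hnn : 0 ≤ (1 / ((p : ℝ) - 1) ^ 2 + if (∃ a ∈ U, ∃ b ∈ U, a ≠ b ∧ ρ p a = ρ p b) ∨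
        ∃ a ∈ U, ρ p a = e p then 1 / ((p : ℝ) - 1) else 0) := by
      split_ifs <;> positivity
    set Z := (1 / ((p : ℝ) - 1) ^ 2 + if (∃ a ∈ U, ∃ b ∈ U, a ≠ b ∧ ρ p a = ρ p b) ∨
        ∃ a ∈ U, ρ p a = e p then 1 / ((p : ℝ) - 1) else 0) with hZ
    have : 4 * ((n : ℝ) + 1) ^ 2 * Z * (1 / 2) ≤ 4 * ((n : ℝ) + 1) ^ 2 * Z * v :=
      mul_le_mul_of_nonneg_left hv2 (by positivity)
    linarith
  by_cases hex : (∃ a ∈ U, ∃ b ∈ U, a ≠ b ∧ ρ p a = ρ p b) ∨ ∃ a ∈ U, ρ p a = e p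
  · rw [if_pos hex]
    have h3 : |1 - GU κ ρ U p - v| ≤ 2 * n / ((p : ℝ) - 1) := by
      have h4 : (U.card : ℝ) / p ≤ n / ((p : ℝ) - 1) :=
        div_le_div₀ hn0 hu h2 (by linarith)
      have h5 : 2 * n / ((p : ℝ) - 1) = n / ((p : ℝ) - 1) + n / ((p : ℝ) - 1) := by ring
      have h6 : 0 ≤ n / ((p : ℝ) - 1) := by positivity
      rw [h5, abs_le]
      constructor <;> linarith
    refine h3.trans ?_
    have h4 : 2 * n / ((p : ℝ) - 1) ≤ 2 * ((n : ℝ) + 1) ^ 2 * (1 / ((p : ℝ) - 1)) := by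
      rw [div_eq_mul_one_div]
      apply mul_le_mul_of_nonneg_right _ (by positivity)
      nlinarith
    have h5 : 0 ≤ 2 * ((n : ℝ) + 1) ^ 2 * (1 / ((p : ℝ) - 1) ^ 2) := by positivity
    linarith
  · rw [if_neg hex, add_zero]
    push Not at hex
    obtain ⟨hinj, hne⟩ := hex
    have hG : GU κ ρ U p = ∑ a ∈ U, κ p (ρ p a) := by
      unfold GU
      rw [Finset.sum_image]
      intro a ha b hb hab
      by_contra hcon
      exact hinj a ha b hb hcon hab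
    have h3 : |GU κ ρ U p - U.card / p| ≤ U.card / ((p : ℝ) - 1) ^ 2 := by
      have e2 : GU κ ρ U p - U.card / p = ∑ a ∈ U, (κ p (ρ p a) - 1 / (p : ℝ)) := by
        rw [hG, Finset.sum_sub_distrib, Finset.sum_const, nsmul_eq_mul]
        ring
      rw [e2]
      calc |∑ a ∈ U, (κ p (ρ p a) - 1 / (p : ℝ))| ≤ ∑ a ∈ U, |κ p (ρ p a) - 1 / (p : ℝ)| :=
            Finset.abs_sum_le_sum_abs _ _
        _ ≤ ∑ a ∈ U, 1 / ((p : ℝ) - 1) ^ 2 :=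
            Finset.sum_le_sum fun a ha => (hD p hp _ (hρ a ha)).2.2 (hne a ha)
        _ = _ := by rw [Finset.sum_const, nsmul_eq_mul]; ring
    have h4 : |1 - GU κ ρ U p - v| ≤
        (U.card : ℝ) / ((p : ℝ) - 1) ^ 2 + (U.card : ℝ) ^ 2 / ((p : ℝ) - 1) ^ 2 := by
      rw [abs_le] at h3 ⊢
      have h5 : 0 ≤ (U.card : ℝ) ^ 2 / ((p : ℝ) - 1) ^ 2 := by positivity
      constructor <;> linarith
    refine h4.trans ?_
    have h5 : (U.card : ℝ) + (U.card : ℝ) ^ 2 ≤ 2 * ((n : ℝ) + 1) ^ 2 := by nlinarith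
    calc (U.card : ℝ) / ((p : ℝ) - 1) ^ 2 + (U.card : ℝ) ^ 2 / ((p : ℝ) - 1) ^ 2
        = ((U.card : ℝ) + (U.card : ℝ) ^ 2) * (1 / ((p : ℝ) - 1) ^ 2) := by ring
      _ ≤ _ := mul_le_mul_of_nonneg_right h5 (by positivity)

/-- comparison of the sieve product with `V1 ^ |U|` -/
lemma VU {κ : ℕ → ℕ → ℝ} {e : ℕ → ℕ} {P : Finset ℕ} (hD : Dens κ e P) {ρ : ℕ → ℕ → ℕ}
    {U : Finset ℕ} {n : ℕ} (hU : U.card ≤ n) (P1 : Finset ℕ) (hP1 : P1 ⊆ P)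
    (hpp : ∀ p ∈ P1, p.Prime) (hpn : ∀ p ∈ P1, 2 * n + 2 ≤ p) (hρ : ∀ p ∈ P1, ∀ a ∈ U, ρ p a < p)
    (δ : ℝ) (hδ : dl e ρ P1 U ≤ δ) :
    |∏ p ∈ P1, (1 - GU κ ρ U p) - V1 P1 ^ U.card| ≤
      V1 P1 ^ U.card * (Real.exp (4 * ((n : ℝ) + 1) ^ 2 * δ) - 1) ∧
    0 ≤ ∏ p ∈ P1, (1 - GU κ ρ U p) ∧ 0 ≤ V1 P1 ^ U.card := by
  have h1 : ∀ p ∈ P1, 0 < (1 - 1 / (p : ℝ)) ^ U.card := fun p hp =>
    (ratio hD hU (hP1 hp) (hpp p hp) (hpn p hp) (hρ p hp)).1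
  have hV : V1 P1 ^ U.card = ∏ p ∈ P1, (1 - 1 / (p : ℝ)) ^ U.card := by
    unfold V1
    rw [Finset.prod_pow]
  have hV0 : 0 < V1 P1 ^ U.card := by
    rw [hV]
    exact Finset.prod_pos h1
  have h2 : ∏ p ∈ P1, (1 - GU κ ρ U p) =
      V1 P1 ^ U.card * ∏ p ∈ P1, ((1 - GU κ ρ U p) / (1 - 1 / (p : ℝ)) ^ U.card) := by
    rw [hV, ← Finset.prod_mul_distrib]
    apply Finset.prod_congr rfl
    intro p hp
    have := (h1 p hp).ne'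
    field_simp
  have h3 := prod_near_one P1 (fun p => (1 - GU κ ρ U p) / (1 - 1 / (p : ℝ)) ^ U.card) _
    (fun p hp => (ratio hD hU (hP1 hp) (hpp p hp) (hpn p hp) (hρ p hp)).2)
  have h4 : ∑ p ∈ P1, (4 * ((n : ℝ) + 1) ^ 2) *
      (1 / ((p : ℝ) - 1) ^ 2 + if (∃ a ∈ U, ∃ b ∈ U, a ≠ b ∧ ρ p a = ρ p b) ∨
        ∃ a ∈ U, ρ p a = e p then 1 / ((p : ℝ) - 1) else 0) = 4 * ((n : ℝ) + 1) ^ 2 * dl e ρ P1 U := by
    unfold dl
    rw [← Finset.mul_sum, Finset.sum_add_distrib, Finset.sum_filter]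
  rw [h4] at h3
  refine ⟨?_, ?_, hV0.le⟩
  · have e1 : ∏ p ∈ P1, (1 - GU κ ρ U p) - V1 P1 ^ U.card =
        V1 P1 ^ U.card * (∏ p ∈ P1, ((1 - GU κ ρ U p) / (1 - 1 / (p : ℝ)) ^ U.card) - 1) := by
      rw [h2]
      ring
    rw [e1, abs_mul, abs_of_pos hV0]
    apply mul_le_mul_of_nonneg_left _ hV0.le
    refine h3.trans ?_
    have : Real.exp (4 * ((n : ℝ) + 1) ^ 2 * dl e ρ P1 U) ≤
        Real.exp (4 * ((n : ℝ) + 1) ^ 2 * δ) := by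
      apply Real.exp_le_exp.2
      exact mul_le_mul_of_nonneg_left hδ (by positivity)
    linarith
  · apply Finset.prod_nonneg
    intro p hp
    obtain ⟨g0, g1⟩ := GU_bound hD hU (hP1 hp) (hpp p hp) (hρ p hp)
    have h5 : (1 : ℝ) < p := by exact_mod_cast (hpp p hp).one_lt
    have h6 : (0 : ℝ) < (p : ℝ) - 1 := by linarith
    have hpn' : 2 * (n : ℝ) + 2 ≤ p := by exact_mod_cast hpn p hp
    have : (n : ℝ) / ((p : ℝ) - 1) ≤ 1 := by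
      rw [div_le_one h6]
      have : (0 : ℝ) ≤ n := Nat.cast_nonneg n
      linarith
    linarith

end Pool.Agent.H488R2.EN2a
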