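import Pool.Agent.H488R2.EN.B

/-! Task EN2a of helper410 (helper488), part 3: `ExpandW` from `FLem`. -/

set_option autoImplicit false

open Finset

namespace Pool.Agent.H488R2.EN2a

open Pool.Agent.H410R2.AC Pool.Agent.H410R2.EN

/-- the statement of `FLem` for fixed `n`, `C0` -/
def FLemAt (κ C0 : ℕ) : Prop :=
  ∀ (b J z0 : ℕ) (P : Finset ℕ) (g : ℕ → ℝ),
  C0 ≤ b → C0 ≤ z0 → (∀ p ∈ P, p.Prime ∧ z0 < p ∧ p ≤ 2 ^ 2 ^ J) →
  (∀ p ∈ P, 0 ≤ g p ∧ g p ≤ κ / ((p : ℝ) - 1)) →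
  ∀ (M : ℕ) (w : ℕ → ℝ) (U : Finset ℕ) (ρ : ℕ → ℕ → ℕ) (T2 : Finset ℕ) (c : ℕ → ℕ) (A : ℝ)
    (err : Finset ℕ → ℝ),
    (∀ m, 0 ≤ w m) → 0 ≤ A →
    (∀ T ⊆ P, ∏ p ∈ T, p ≤ (2 ^ 2 ^ J) ^ (C0 * b) →
      |∑ m ∈ (range M).filter (fun m => ∀ p ∈ T2, m % p = c p),
        (if ∀ p ∈ T, m % p ∈ U.image (ρ p) then w m else 0) - A * ∏ p ∈ T, g p| ≤ err T) →
    |∑ m ∈ (range M).filter (fun m => ∀ p ∈ T2, m % p = c p),
        (if ∀ p ∈ P, m % p ∉ U.image (ρ p) then w m else 0) - A * ∏ p ∈ P, (1 - g p)| ≤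
      (1 / 2 : ℝ) ^ b * (A * ∏ p ∈ P, (1 - g p)) +
        ((J : ℝ) + 2) *
          ∑ T ∈ P.powerset.filter (fun T : Finset ℕ => ∏ p ∈ T, p ≤ (2 ^ 2 ^ J) ^ (C0 * b)), err T

lemma flemAt_of (h : FLem) (κ : ℕ) : ∃ C0 : ℕ, 1 ≤ C0 ∧ FLemAt κ C0 := by
  obtain ⟨C0, hC0, h1⟩ := h κ
  refine ⟨C0, hC0, ?_⟩
  intro b J z0 P g hb hz hP hg M w U ρ T2 c A err hw hA hT
  have h2 := h1 b J z0 P g hb hz hP hg ((range M).filter (fun m => ∀ p ∈ T2, m % p = c p)) w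
    (fun p m => m % p ∈ U.image (ρ p)) A err (fun m _ => hw m) hA (by
      intro T hTP hTb
      have h3 := hT T hTP hTb
      rw [Finset.sum_filter]
      convert h3 using 6)
  rw [Finset.sum_filter] at h2
  convert h2 using 6

variable {n C0 : ℕ}

/-- the sum of errors for given fixed classes -/
noncomputable def ES (k C J b : ℕ) (P1 : Finset ℕ) (err : Finset ℕ → ℝ) (T2 : Finset ℕ) : ℝ :=
  ∑ T1 ∈ P1.powerset.filter (fun T : Finset ℕ => ∏ p ∈ T, p ≤ (2 ^ 2 ^ J) ^ (C * b)),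
    (k : ℝ) ^ T1.card * err (T1 ∪ T2)

lemma fl_apply (hF : FLemAt n C0) {b J z0 D0 D2 : ℕ} {P1 P2 : Finset ℕ} {ρ : ℕ → ℕ → ℕ}
    {κ : ℕ → ℕ → ℝ} {e : ℕ → ℕ} {w : ℕ → ℝ} {M : ℕ} {A : ℝ} {err : Finset ℕ → ℝ} {U : Finset ℕ}
    (hU : U.card ≤ n) (hb : C0 ≤ b) (hz : C0 ≤ z0)
    (hP1 : ∀ p ∈ P1, p.Prime ∧ z0 < p ∧ p ≤ 2 ^ 2 ^ J)
    (hP2 : ∀ p ∈ P2, p.Prime ∧ z0 < p ∧ 2 ^ 2 ^ J < p) (hD : Dens κ e (P1 ∪ P2))
    (hw : ∀ m, 0 ≤ w m) (hA : 0 ≤ A) (hE : Equid κ w M A (P1 ∪ P2) D0 err)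
    (hD0 : (2 ^ 2 ^ J) ^ (C0 * b) * D2 ≤ D0) (hρ : ∀ p ∈ P1, ∀ a ∈ U, ρ p a < p)
    (T2 : Finset ℕ) (hT2 : T2 ⊆ P2) (hT2D : ∏ p ∈ T2, p ≤ D2) (c : ℕ → ℕ) (hc : ∀ p ∈ T2, c p < p) :
    |∑ m ∈ (range M).filter (fun m => ∀ p ∈ T2, m % p = c p),
        (if ∀ p ∈ P1, m % p ∉ U.image (ρ p) then w m else 0) -
        A * (∏ p ∈ T2, κ p (c p)) * ∏ p ∈ P1, (1 - GU κ ρ U p)| ≤
      (1 / 2 : ℝ) ^ b * (A * (∏ p ∈ T2, κ p (c p)) * ∏ p ∈ P1, (1 - GU κ ρ U p)) +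
        ((J : ℝ) + 2) * ES n C0 J b P1 err T2 := by
  have hκ0 : 0 ≤ ∏ p ∈ T2, κ p (c p) := Finset.prod_nonneg fun p hp =>
    (hD p (Finset.mem_union_right _ (hT2 hp)) (c p) (hc p hp)).1
  refine hF b J z0 P1 (GU κ ρ U) hb hz hP1 (fun p hp => GU_bound hD hU
    (Finset.mem_union_left _ hp) (hP1 p hp).1 (hρ p hp)) M w U ρ T2 c
    (A * ∏ p ∈ T2, κ p (c p)) (fun T1 => (n : ℝ) ^ T1.card * err (T1 ∪ T2)) hw
    (mul_nonneg hA hκ0) ?_
  intro T1 hT1 hT1b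
  have hdisj : Disjoint T1 T2 := by
    rw [Finset.disjoint_left]
    intro p hp hq
    have h1 := (hP1 p (hT1 hp)).2.2
    have h2 := (hP2 p (hT2 hq)).2.2
    omega
  rw [mass_hit w M T1 T2 hdisj c (fun p => U.image (ρ p))]
  have hG : A * (∏ p ∈ T2, κ p (c p)) * ∏ p ∈ T1, GU κ ρ U p =
      ∑ c1 ∈ T1.pi (fun p => U.image (ρ p)),
        A * ∏ p ∈ T1 ∪ T2, κ p (if p ∈ T1 then extf T1 c1 p else c p) := by
    unfold GU
    rw [prod_sum' T1 (fun p => U.image (ρ p)) κ, Finset.mul_sum]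
    apply Finset.sum_congr rfl
    intro c1 _
    rw [Finset.prod_union hdisj]
    have e1 : ∏ p ∈ T1, κ p (if p ∈ T1 then extf T1 c1 p else c p) =
        ∏ p ∈ T1, κ p (extf T1 c1 p) := by
      apply Finset.prod_congr rfl
      intro p hp
      rw [if_pos hp]
    have e2 : ∏ p ∈ T2, κ p (if p ∈ T1 then extf T1 c1 p else c p) = ∏ p ∈ T2, κ p (c p) := by
      apply Finset.prod_congr rfl
      intro p hp
      rw [if_neg (fun h => Finset.disjoint_left.1 hdisj h hp)]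
    rw [e1, e2]
    ring
  rw [hG, ← Finset.sum_sub_distrib]
  have hprod : ∏ p ∈ T1 ∪ T2, p ≤ D0 := by
    rw [Finset.prod_union hdisj]
    exact (Nat.mul_le_mul hT1b hT2D).trans hD0
  have hsub : T1 ∪ T2 ⊆ P1 ∪ P2 := Finset.union_subset_union hT1 hT2
  have hterm : ∀ c1 ∈ T1.pi (fun p => U.image (ρ p)),
      |∑ m ∈ (range M).filter (fun m => ∀ p ∈ T1 ∪ T2,
        m % p = if p ∈ T1 then extf T1 c1 p else c p), w m -
        A * ∏ p ∈ T1 ∪ T2, κ p (if p ∈ T1 then extf T1 c1 p else c p)| ≤ err (T1 ∪ T2) := by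
    intro c1 hc1
    refine hE (T1 ∪ T2) hsub hprod (fun p => if p ∈ T1 then extf T1 c1 p else c p) ?_
    intro p hp
    by_cases hp1 : p ∈ T1
    · simp only [if_pos hp1]
      obtain ⟨a, ha, hae⟩ := Finset.mem_image.1 (extf_mem hc1 hp1)
      rw [← hae]
      exact hρ p (hT1 hp1) a ha
    · simp only [if_neg hp1]
      exact hc p ((Finset.mem_union.1 hp).resolve_left hp1)
  have hcard : ((T1.pi (fun p => U.image (ρ p))).card : ℝ) ≤ (n : ℝ) ^ T1.card := by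
    rw [Finset.card_pi]
    push_cast
    calc ∏ p ∈ T1, ((U.image (ρ p)).card : ℝ) ≤ ∏ _p ∈ T1, (n : ℝ) := by
          apply Finset.prod_le_prod (fun _ _ => Nat.cast_nonneg _)
          intro p _
          exact_mod_cast (Finset.card_image_le).trans hU
      _ = _ := by rw [Finset.prod_const]
  by_cases hne : (T1.pi (fun p => U.image (ρ p))).Nonempty
  · obtain ⟨c1, hc1⟩ := hne
    have herr0 : 0 ≤ err (T1 ∪ T2) := (abs_nonneg _).trans (hterm c1 hc1)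
    calc |∑ c1 ∈ T1.pi (fun p => U.image (ρ p)), (∑ m ∈ (range M).filter (fun m => ∀ p ∈ T1 ∪ T2,
          m % p = if p ∈ T1 then extf T1 c1 p else c p), w m -
          A * ∏ p ∈ T1 ∪ T2, κ p (if p ∈ T1 then extf T1 c1 p else c p))|
        ≤ ∑ c1 ∈ T1.pi (fun p => U.image (ρ p)), |∑ m ∈ (range M).filter (fun m => ∀ p ∈ T1 ∪ T2,
          m % p = if p ∈ T1 then extf T1 c1 p else c p), w m -
          A * ∏ p ∈ T1 ∪ T2, κ p (if p ∈ T1 then extf T1 c1 p else c p)| :=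
          Finset.abs_sum_le_sum_abs _ _
      _ ≤ ∑ _c1 ∈ T1.pi (fun p => U.image (ρ p)), err (T1 ∪ T2) := Finset.sum_le_sum hterm
      _ = (T1.pi (fun p => U.image (ρ p))).card * err (T1 ∪ T2) := by
          rw [Finset.sum_const, nsmul_eq_mul]
      _ ≤ (n : ℝ) ^ T1.card * err (T1 ∪ T2) := mul_le_mul_of_nonneg_right hcard herr0
  · rw [Finset.not_nonempty_iff_eq_empty] at hne
    rw [hne, Finset.sum_empty, abs_zero]
    apply mul_nonneg (by positivity)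
    refine (abs_nonneg _).trans (hE (T1 ∪ T2) hsub hprod (fun _ => 0) ?_)
    intro p hp
    rcases Finset.mem_union.1 hp with h | h
    · exact (hP1 p (hT1 h)).1.pos
    · exact (hP2 p (hT2 h)).1.pos

/-- expansion of the weighted sum -/
lemma expand (w : ℕ → ℝ) (M : ℕ) (P1 U Q : Finset ℕ) (ρ : ℕ → ℕ → ℕ) (h : ℕ → ℕ → ℝ)
    (Cl : ℕ → Finset ℕ) (hQ : ∀ p ∈ Q, 0 < p)
    (hCl : ∀ p ∈ Q, Cl p ⊆ range p ∧ ∀ c < p, c ∉ Cl p → h p c = 1) :
    ∑ m ∈ range M, w m * ((∏ a ∈ U, rg ρ P1 a m) * ∏ p ∈ Q, h p (m % p)) =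
      ∑ T ∈ Q.powerset, ∑ c ∈ T.pi Cl, (∏ p ∈ T, (h p (extf T c p) - 1)) *
        ∑ m ∈ (range M).filter (fun m => ∀ p ∈ T, m % p = extf T c p),
          (if ∀ p ∈ P1, m % p ∉ U.image (ρ p) then w m else 0) := by
  have h1 : ∀ m, ∏ a ∈ U, rg ρ P1 a m = if ∀ p ∈ P1, m % p ∉ U.image (ρ p) then 1 else 0 := by
    intro m
    unfold rg
    rw [Finset.prod_boole]
    congr 1
    rw [eq_iff_iff]
    constructor
    · intro h2 p hp hcon
      obtain ⟨a, ha, hae⟩ := Finset.mem_image.1 hcon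
      exact h2 a ha p hp hae.symm
    · intro h2 a ha p hp hcon
      exact h2 p hp (Finset.mem_image.2 ⟨a, ha, hcon.symm⟩)
  have h2 : ∀ m, ∏ p ∈ Q, h p (m % p) = ∑ T ∈ Q.powerset, ∑ c ∈ T.pi Cl,
      (∏ p ∈ T, (h p (extf T c p) - 1)) * (if ∀ p ∈ T, m % p = extf T c p then 1 else 0) := by
    intro m
    have e1 : ∏ p ∈ Q, h p (m % p) = ∏ p ∈ Q, (1 + (if m % p ∈ Cl p then h p (m % p) - 1 else 0)) := by
      apply Finset.prod_congr rfl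
      intro p hp
      by_cases hc : m % p ∈ Cl p
      · rw [if_pos hc]; ring
      · rw [if_neg hc, (hCl p hp).2 _ (Nat.mod_lt _ (hQ p hp)) hc]; ring
    rw [e1, Finset.prod_one_add]
    apply Finset.sum_congr rfl
    intro T _
    exact (class_decomp T Cl (fun p c => h p c - 1) m).symm
  simp_rw [h1, h2]
  calc ∑ m ∈ range M, w m * ((if ∀ p ∈ P1, m % p ∉ U.image (ρ p) then (1 : ℝ) else 0) *
        ∑ T ∈ Q.powerset, ∑ c ∈ T.pi Cl, (∏ p ∈ T, (h p (extf T c p) - 1)) *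
          (if ∀ p ∈ T, m % p = extf T c p then 1 else 0))
      = ∑ m ∈ range M, ∑ T ∈ Q.powerset, ∑ c ∈ T.pi Cl, (∏ p ∈ T, (h p (extf T c p) - 1)) *
          (if ∀ p ∈ T, m % p = extf T c p then
            (if ∀ p ∈ P1, m % p ∉ U.image (ρ p) then w m else 0) else 0) := by
        apply Finset.sum_congr rfl
        intro m _
        rw [Finset.mul_sum, Finset.mul_sum]
        apply Finset.sum_congr rfl
        intro T _
        rw [Finset.mul_sum, Finset.mul_sum]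
        apply Finset.sum_congr rfl
        intro c _
        split_ifs <;> ring
    _ = ∑ T ∈ Q.powerset, ∑ c ∈ T.pi Cl, ∑ m ∈ range M, (∏ p ∈ T, (h p (extf T c p) - 1)) *
          (if ∀ p ∈ T, m % p = extf T c p then
            (if ∀ p ∈ P1, m % p ∉ U.image (ρ p) then w m else 0) else 0) := by
        rw [Finset.sum_comm]
        apply Finset.sum_congr rfl
        intro T _
        rw [Finset.sum_comm]
    _ = _ := by
        apply Finset.sum_congr rfl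
        intro T _
        apply Finset.sum_congr rfl
        intro c _
        rw [← Finset.mul_sum, Finset.sum_filter]

end Pool.Agent.H488R2.EN2a
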